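import Mathlib
import Pool.Agent.Helper36.SPR.St2

set_option autoImplicit false

namespace Pool.Agent.Helper72.SPR

open Finset Pool.Agent.Helper36.SPR

/-- the completely multiplicative function `1/n` -/
noncomputable def invHom : ℕ →* ℝ where
  toFun n := (n : ℝ)⁻¹
  map_one' := by simp
  map_mul' m n := by push_cast; rw [mul_inv]

theorem harm_le_prod (z : ℕ) :
    ∑ n ∈ Icc 1 z, ((n : ℝ)⁻¹) ≤ ∏ p ∈ (z + 1).primesBelow, (1 - (p : ℝ)⁻¹)⁻¹ := by
  have h := EulerProduct.summable_and_hasSum_smoothNumbers_prod_primesBelow_geometric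
    (f := invHom) (fun {p} hp => by
      show ‖((p : ℝ)⁻¹)‖ < 1
      rw [Real.norm_of_nonneg (by positivity)]
      exact inv_lt_one_of_one_lt₀ (by exact_mod_cast hp.one_lt)) (z + 1)
  have hs := h.2
  let e : {n // n ∈ Icc 1 z} → (z + 1).smoothNumbers := fun n =>
    ⟨n.1, by
      have hn := mem_Icc.1 n.2
      exact Nat.mem_smoothNumbers_of_lt (by omega) (by omega)⟩
  have he : Function.Injective e := by
    intro a b hab
    apply Subtype.ext
    exact congrArg (fun x : (z + 1).smoothNumbers => (x : ℕ)) hab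
  have h1 : ∑ n ∈ Icc 1 z, ((n : ℝ)⁻¹)
      = ∑ m ∈ (Finset.univ : Finset {n // n ∈ Icc 1 z}).map ⟨e, he⟩, invHom (m : ℕ) := by
    rw [Finset.sum_map, ← Finset.sum_coe_sort]
    rfl
  rw [h1]
  refine sum_le_hasSum _ (fun i _ => ?_) hs
  show (0 : ℝ) ≤ (((i : ℕ) : ℝ))⁻¹
  positivity

theorem tele (z : ℕ) (hz : 1 ≤ z) :
    ∑ n ∈ Icc 2 z, (1 / ((n : ℝ) * (n - 1))) = 1 - 1 / z := by
  induction z, hz using Nat.le_induction with
  | base => simp
  | succ m hm ih =>
    rw [Finset.sum_Icc_succ_top (by omega), ih]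
    have h0 : (m : ℝ) ≠ 0 := by
      have : (0 : ℝ) < m := by exact_mod_cast hm
      exact this.ne'
    have h1 : (m : ℝ) + 1 ≠ 0 := by positivity
    push_cast
    rw [add_sub_cancel_right]
    field_simp
    ring

theorem hME : StME := by
  refine ⟨1, fun z hz => ?_⟩
  have hS : (z + 1).primesBelow = (Icc 1 z).filter Nat.Prime := by
    ext p
    rw [Nat.mem_primesBelow, mem_filter, mem_Icc]
    constructor
    · rintro ⟨h1, h2⟩
      exact ⟨⟨h2.one_lt.le, by omega⟩, h2⟩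
    · rintro ⟨h1, h2⟩
      exact ⟨by omega, h2⟩
  have hlz : 1 < Real.log z := by
    rw [Real.lt_log_iff_exp_lt (by positivity)]
    have h3 : (3 : ℝ) ≤ z := by exact_mod_cast hz
    have := Real.exp_one_lt_d9
    linarith
  have hA : Real.log z ≤ ∏ p ∈ (Icc 1 z).filter Nat.Prime, (1 - (p : ℝ)⁻¹)⁻¹ := by
    rw [← hS]
    refine le_trans ?_ (harm_le_prod z)
    have h1 := log_add_one_le_harmonic z
    have h2 : ((harmonic z : ℚ) : ℝ) = ∑ n ∈ Icc 1 z, ((n : ℝ)⁻¹) := by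
      rw [harmonic_eq_sum_Icc]
      push_cast
      rfl
    rw [h2] at h1
    refine le_trans ?_ h1
    apply Real.log_le_log
    · have : (3 : ℝ) ≤ z := by exact_mod_cast hz
      linarith
    · push_cast
      linarith
  have hpos : ∀ p ∈ (Icc 1 z).filter Nat.Prime, (0 : ℝ) < (1 - (p : ℝ)⁻¹)⁻¹ := by
    intro p hp
    have hp2 := (mem_filter.1 hp).2.one_lt
    have : (p : ℝ)⁻¹ < 1 := inv_lt_one_of_one_lt₀ (by exact_mod_cast hp2)
    apply inv_pos.2
    linarith
  have hB : Real.log (Real.log z)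
      ≤ ∑ p ∈ (Icc 1 z).filter Nat.Prime, Real.log ((1 - (p : ℝ)⁻¹)⁻¹) := by
    rw [← Real.log_prod (fun p hp => (hpos p hp).ne')]
    exact Real.log_le_log (by linarith) hA
  have hC : ∀ p ∈ (Icc 1 z).filter Nat.Prime,
      Real.log ((1 - (p : ℝ)⁻¹)⁻¹) ≤ 1 / (p : ℝ) + 1 / ((p : ℝ) * (p - 1)) := by
    intro p hp
    have hp2 : (1 : ℝ) < p := by exact_mod_cast (mem_filter.1 hp).2.one_lt
    have h1 := Real.log_le_sub_one_of_pos (hpos p hp)
    refine h1.trans (le_of_eq ?_)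
    have h3 : (p : ℝ) - 1 ≠ 0 := by linarith
    have h4 : (p : ℝ) ≠ 0 := by linarith
    have h5 : (1 - (p : ℝ)⁻¹) = ((p : ℝ) - 1) / p := by field_simp
    rw [h5, inv_div]
    field_simp
    ring
  have hD : ∑ p ∈ (Icc 1 z).filter Nat.Prime, (1 / ((p : ℝ) * (p - 1))) ≤ 1 := by
    have h1 : ∑ p ∈ (Icc 1 z).filter Nat.Prime, (1 / ((p : ℝ) * (p - 1)))
        ≤ ∑ n ∈ Icc 2 z, (1 / ((n : ℝ) * (n - 1))) := by
      apply Finset.sum_le_sum_of_subset_of_nonneg
      · intro p hp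
        rw [mem_filter, mem_Icc] at hp
        rw [mem_Icc]
        exact ⟨hp.2.two_le, hp.1.2⟩
      · intro n hn _
        have : (2 : ℝ) ≤ n := by exact_mod_cast (mem_Icc.1 hn).1
        have h2 : (0 : ℝ) < (n : ℝ) * (n - 1) := by nlinarith
        positivity
    rw [tele z (by omega)] at h1
    have : (0 : ℝ) ≤ 1 / z := by positivity
    linarith
  have hE := hB.trans (Finset.sum_le_sum hC)
  rw [Finset.sum_add_distrib] at hE
  linarith

end Pool.Agent.Helper72.SPR
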