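import Pool.Agent.Helper36.SPR.St4

set_option autoImplicit false

namespace Pool.Agent.Helper72.SPR

open Pool.Agent.Helper36.SPR Finset
open scoped ComplexConjugate

theorem norm_std {n : ℕ} [NeZero n] (x : ZMod n) : ‖(ZMod.stdAddChar x : ℂ)‖ = 1 :=
  AddChar.norm_apply _ _

theorem std_neg {n : ℕ} [NeZero n] (x : ZMod n) :
    (ZMod.stdAddChar (-x) : ℂ) = conj (ZMod.stdAddChar x : ℂ) :=
  AddChar.map_neg_eq_conj _ _

theorem nuv_nonneg (n T : ℕ) [NeZero n] (th : ZMod n) : ∀ (j : ℕ) (x : ZMod n), 0 ≤ nuv n T th j x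
  | 0, x => by
      rw [nuv]
      show (0 : ℝ) ≤ if x = 0 then 1 else 0
      split_ifs <;> norm_num
  | j + 1, x => by
      rw [nuv]
      refine div_nonneg (Finset.sum_nonneg fun i _ => Finset.sum_nonneg fun i' _ => ?_) (by positivity)
      exact nuv_nonneg n T th j _

theorem fourier_succ (n T : ℕ) [NeZero n] (th : ZMod n) (j : ℕ) (a : ZMod n) :
    ∑ x, (nuv n T th (j + 1) x : ℂ) * ZMod.stdAddChar (a * x)
      = muv n T th a * conj (muv n T th a) * ∑ x, (nuv n T th j x : ℂ) * ZMod.stdAddChar (a * x) := by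
  have h1 : ∀ i i' : ℕ, ∑ x : ZMod n, (nuv n T th j (x - th ^ i + th ^ i') : ℂ) * ZMod.stdAddChar (a * x)
      = (ZMod.stdAddChar (a * th ^ i) : ℂ) * conj (ZMod.stdAddChar (a * th ^ i') : ℂ)
        * ∑ x, (nuv n T th j x : ℂ) * ZMod.stdAddChar (a * x) := by
    intro i i'
    rw [← Equiv.sum_comp (Equiv.addRight (th ^ i - th ^ i' : ZMod n)), Finset.mul_sum]
    refine Finset.sum_congr rfl fun y _ => ?_
    have e1 : (Equiv.addRight (th ^ i - th ^ i' : ZMod n)) y - th ^ i + th ^ i' = y := by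
      rw [Equiv.coe_addRight]; ring
    have e2 : a * (Equiv.addRight (th ^ i - th ^ i' : ZMod n)) y
        = a * th ^ i + -(a * th ^ i') + a * y := by
      rw [Equiv.coe_addRight]; ring
    rw [e1, e2, AddChar.map_add_eq_mul, AddChar.map_add_eq_mul, std_neg]
    ring
  have h2 : ∀ x : ZMod n, (nuv n T th (j + 1) x : ℂ) * ZMod.stdAddChar (a * x)
      = ∑ i ∈ range T, ∑ i' ∈ range T,
        ((nuv n T th j (x - th ^ i + th ^ i') : ℂ) * ZMod.stdAddChar (a * x)) / (T : ℂ) ^ 2 := by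
    intro x
    rw [nuv]
    push_cast
    rw [div_mul_eq_mul_div, Finset.sum_mul, Finset.sum_div]
    refine Finset.sum_congr rfl fun i _ => ?_
    rw [Finset.sum_mul, Finset.sum_div]
  simp_rw [h2]
  rw [Finset.sum_comm]
  have h3 : ∀ i ∈ range T, ∑ x : ZMod n, ∑ i' ∈ range T,
        ((nuv n T th j (x - th ^ i + th ^ i') : ℂ) * ZMod.stdAddChar (a * x)) / (T : ℂ) ^ 2
      = ∑ i' ∈ range T, ((ZMod.stdAddChar (a * th ^ i) : ℂ)
        * conj (ZMod.stdAddChar (a * th ^ i') : ℂ)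
        * ∑ x, (nuv n T th j x : ℂ) * ZMod.stdAddChar (a * x)) / (T : ℂ) ^ 2 := by
    intro i _
    rw [Finset.sum_comm]
    refine Finset.sum_congr rfl fun i' _ => ?_
    rw [← Finset.sum_div, h1]
  rw [Finset.sum_congr rfl h3]
  unfold muv
  rw [map_div₀, map_sum, map_natCast, div_mul_div_comm, Finset.sum_mul_sum, ← sq, div_mul_eq_mul_div,
    Finset.sum_mul, Finset.sum_div]
  refine Finset.sum_congr rfl fun i _ => ?_
  rw [Finset.sum_mul, Finset.sum_div]

theorem fourier (n T : ℕ) [NeZero n] (th a : ZMod n) : ∀ j : ℕ,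
    ∑ x, (nuv n T th j x : ℂ) * ZMod.stdAddChar (a * x) = ((‖muv n T th a‖ ^ (2 * j) : ℝ) : ℂ)
  | 0 => by
      have h : ∀ x : ZMod n, (nuv n T th 0 x : ℂ) * ZMod.stdAddChar (a * x)
          = if x = 0 then 1 else 0 := by
        intro x
        rw [nuv]
        show ((if x = 0 then (1 : ℝ) else 0 : ℝ) : ℂ) * ZMod.stdAddChar (a * x)
          = if x = 0 then 1 else 0
        by_cases hx : x = 0
        · rw [if_pos hx, if_pos hx, hx, mul_zero, AddChar.map_zero_eq_one]; norm_num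
        · rw [if_neg hx, if_neg hx]; norm_num
      simp_rw [h]
      simp
  | j + 1 => by
      rw [fourier_succ, fourier n T th a j, Complex.mul_conj, Complex.normSq_eq_norm_sq]
      push_cast
      ring

theorem norm_muv_le (n T : ℕ) [NeZero n] (th : ZMod n) (hT : 0 < T) (a : ZMod n) : ‖muv n T th a‖ ≤ 1 := by
  unfold muv
  have hT' : (0 : ℝ) < T := by exact_mod_cast hT
  rw [norm_div, Complex.norm_natCast, div_le_one hT']
  calc ‖∑ i ∈ range T, (ZMod.stdAddChar (a * th ^ i) : ℂ)‖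
      ≤ ∑ i ∈ range T, ‖(ZMod.stdAddChar (a * th ^ i) : ℂ)‖ := norm_sum_le _ _
    _ = T := by simp

theorem hNA3 : StNA3 := by
  intro n T _ th hT j
  refine ⟨nuv_nonneg n T th j, ?_, fun a => fourier n T th a j, norm_muv_le n T th hT⟩
  have h := fourier n T th 0 j
  have hmu : muv n T th 0 = 1 := by
    have hT' : (T : ℂ) ≠ 0 := by exact_mod_cast hT.ne'
    unfold muv
    simp [AddChar.map_zero_eq_one, hT']
  rw [hmu, norm_one, one_pow] at h
  simp only [zero_mul, AddChar.map_zero_eq_one, mul_one] at h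
  exact_mod_cast h

end Pool.Agent.Helper72.SPR
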