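import Mathlib
import Pool.Agent.Helper36.SPR.St

set_option autoImplicit false

namespace Pool.Agent.Helper72.SPR

open Finset Pool.Agent.Helper36.SPR
open scoped Pointwise

/-- `ks S m` is the pointwise multiple `m • S`. -/
theorem ks_eq {G : Type} [AddCommGroup G] [DecidableEq G] (S : Finset G) :
    ∀ m : ℕ, ks S m = nsmulRec m S
  | 0 => rfl
  | m + 1 => by
      show ks S m + S = nsmulRec m S + S
      rw [ks_eq S m]

theorem ks_eq' {G : Type} [AddCommGroup G] [DecidableEq G] (S : Finset G) (m : ℕ) :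
    ks S m = @HSMul.hSMul ℕ (Finset G) (Finset G) (@instHSMul ℕ (Finset G) Finset.nsmul) m S :=
  ks_eq S m

theorem hPL : StPL := by
  intro G _ _ S M hS hM m m'
  have hc : (0 : ℝ) < S.card := by exact_mod_cast hS.card_pos
  have h := Finset.pluennecke_ruzsa_inequality_nsmul_sub_nsmul_sub hS S m m'
  have h1 : (((ks S m - ks S m').card : ℚ≥0) : ℝ)
      ≤ ((((S - S).card / S.card : ℚ≥0) ^ (m + m') * S.card : ℚ≥0) : ℝ) := by
    rw [ks_eq', ks_eq']
    exact_mod_cast h
  push_cast at h1
  refine h1.trans ?_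
  apply mul_le_mul_of_nonneg_right _ hc.le
  apply pow_le_pow_left₀ (by positivity)
  rw [div_le_iff₀ hc]
  exact hM

end Pool.Agent.Helper72.SPR
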